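import Pool.Agent.Q84.Trek.BP

set_option autoImplicit false

/-!
# Extracting a binomial from a determinant
-/

namespace Pool.Agent.Q84.Trek

open MvPolynomial

section
variable {K B ι V : Type*} [Field K] [CommRing B] [IsDomain B] [Algebra K B]

/-- The extraction lemma. -/
theorem extraction (θ : MvPolynomial ι K →ₐ[K] B) (v : V → V → ι)
    (hv : ∀ x y x' y', v x y = v x' y' → (x = x' ∧ y = y') ∨ (x = y' ∧ y = x'))
    (hBP : BP (RingHom.ker θ))
    (C : Finset V) (i j : V) (hi : i ∉ C) (hj : j ∉ C) (hij : i ≠ j)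
    (l : V → B)
    (hli : θ (X (v i j)) = ∑ c ∈ C, l c * θ (X (v i c)))
    (hlc : ∀ r ∈ C, θ (X (v r j)) = ∑ c ∈ C, l c * θ (X (v r c)))
    (d : B → ℕ) (hd : ∀ x y, x ≠ 0 → y ≠ 0 → d (x * y) = d x + d y)
    (hdK : ∀ (c : K) x, c ≠ 0 → d (c • x) = d x)
    (h0 : ∀ c ∈ C, θ (X (v c c)) ≠ 0) (hd0 : ∀ c ∈ C, d (θ (X (v c c))) = 0)
    (hd1 : ∀ x ∈ C, ∀ y, x ≠ y → θ (X (v x y)) ≠ 0 → 1 ≤ d (θ (X (v x y))))
    (hd2 : ∀ c ∈ C, θ (X (v i c)) ≠ 0 → d (θ (X (v i j))) ≤ d (θ (X (v i c))) + 1)
    (hne : θ (X (v i j)) ≠ 0) :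
    ∃ c ∈ C, ∃ κ : K, κ ≠ 0 ∧
      θ (X (v i j)) * θ (X (v c c)) = κ • (θ (X (v i c)) * θ (X (v c j))) := by
  classical
  let row : Option C → V := fun r => r.elim i (fun c => (c : V))
  let col : Option C → V := fun r => r.elim j (fun c => (c : V))
  let N : Matrix (Option C) (Option C) (MvPolynomial ι K) :=
    Matrix.of fun s r => X (v (row r) (col s))
  have hrow : ∀ r s, row r = row s → r = s := by
    rintro (_ | r) (_ | s) h
    · rfl
    · have h' : i = s := h
      exact absurd (h'.symm ▸ s.2) hi
    · have h' : (r : V) = i := h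
      exact absurd (h' ▸ r.2) hi
    · exact congrArg some (Subtype.ext h)
  have hcol : ∀ r s, col r = col s → r = s := by
    rintro (_ | r) (_ | s) h
    · rfl
    · have h' : j = s := h
      exact absurd (h'.symm ▸ s.2) hj
    · have h' : (r : V) = j := h
      exact absurd (h' ▸ r.2) hj
    · exact congrArg some (Subtype.ext h)
  -- the determinant lies in the kernel
  have hdet : θ N.det = 0 := by
    have h1 : θ N.det = (N.map θ).det := by
      have := RingHom.map_det (θ : MvPolynomial ι K →+* B) N
      exact this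
    rw [h1]
    refine Matrix.exists_vecMul_eq_zero_iff.mp
      ⟨fun s => s.elim 1 (fun c => - l c), ?_, ?_⟩
    · intro h
      have := congrFun h none
      exact one_ne_zero this
    · funext r
      rw [Matrix.vecMul, dotProduct, Fintype.sum_option]
      simp only [Option.elim, Matrix.map_apply, N, Matrix.of_apply, Pi.zero_apply, one_mul, neg_mul]
      rw [Finset.sum_neg_distrib]
      have h2 : θ (X (v (row r) j)) = ∑ c ∈ C, l c * θ (X (v (row r) c)) := by
        rcases r with _ | r
        · exact hli
        · exact hlc r r.2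
      have h3 : θ (X (v (row r) (col none))) = θ (X (v (row r) j)) := rfl
      rw [h3, h2, ← Finset.sum_coe_sort C (fun c => l c * θ (X (v (row r) c)))]
      exact add_neg_cancel _
  -- monomials
  let mon : Equiv.Perm (Option C) → (ι →₀ ℕ) := fun π =>
    ∑ r, Finsupp.single (v (row r) (col (π r))) 1
  have hN : N.det = ∑ π : Equiv.Perm (Option C), ((Equiv.Perm.sign π : ℤ) : MvPolynomial ι K) *
      monomial (mon π) 1 := by
    rw [Matrix.det_apply']
    refine Finset.sum_congr rfl fun π _ => ?_
    congr 1
    rw [monomial_sum_one]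
    rfl
  have hmon1 : ∀ π, mon π = mon 1 → π = 1 := by
    intro π hπ
    -- counting
    have hpos : ∀ (π : Equiv.Perm (Option C)) r, mon π (v (row r) (col (π r))) ≠ 0 := by
      intro π r h
      simp only [mon, Finsupp.finsetSum_apply] at h
      have := (Finset.sum_eq_zero_iff.mp h) r (Finset.mem_univ _)
      rw [Finsupp.single_eq_same] at this
      exact one_ne_zero this
    have hex : ∀ (π : Equiv.Perm (Option C)) p, mon π p ≠ 0 → ∃ r, v (row r) (col (π r)) = p := by
      intro π p h
      by_contra hcon
      push Not at hcon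
      apply h
      simp only [mon, Finsupp.finsetSum_apply]
      refine Finset.sum_eq_zero fun r _ => ?_
      exact Finsupp.single_eq_of_ne (hcon r).symm
    have hnone : π none = none := by
      have h1 : mon π (v i j) ≠ 0 := by rw [hπ]; exact hpos 1 none
      obtain ⟨r, hr⟩ := hex π _ h1
      rcases hv _ _ _ _ hr with ⟨h2, h3⟩ | ⟨h2, h3⟩
      · have h4 : r = none := hrow r none h2
        have h5 : π r = none := hcol _ none h3
        rw [← h4]
        rw [h5, h4]
      · exfalso
        rcases r with _ | r
        · exact hij h2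
        · exact hj (h2 ▸ r.2)
    ext1 r
    rcases r with _ | c
    · rw [hnone]; rfl
    · have h1 : mon π (v c c) ≠ 0 := by rw [hπ]; exact hpos 1 (some c)
      obtain ⟨r, hr⟩ := hex π _ h1
      have h2 : row r = c ∧ col (π r) = c := by
        rcases hv _ _ _ _ hr with h | h
        · exact h
        · exact h
      have h4 : r = some c := hrow r (some c) h2.1
      have h5 : π r = some c := hcol _ (some c) h2.2
      rw [h4] at h5
      rw [h5]; rfl
  have hcoeff : coeff (mon 1) N.det = 1 := by
    rw [hN, coeff_sum, Finset.sum_eq_single 1]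
    · rw [Equiv.Perm.sign_one, Units.val_one, Int.cast_one, one_mul, coeff_monomial, if_pos rfl]
    · intro π _ hπ
      rw [← map_intCast (MvPolynomial.C : K →+* MvPolynomial ι K), coeff_C_mul, coeff_monomial,
        if_neg (fun h => hπ (hmon1 π h)), mul_zero]
    · intro h; exact absurd (Finset.mem_univ _) h
  have hθmon : ∀ π, θ (monomial (mon π) 1) = ∏ r, θ (X (v (row r) (col (π r)))) := by
    intro π
    rw [← map_prod]
    congr 1
    rw [monomial_sum_one]
    rfl
  have hθ1 : θ (monomial (mon 1) 1) = θ (X (v i j)) * ∏ c : C, θ (X (v c c)) := by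
    rw [hθmon, Fintype.prod_option]
    rfl
  have hθ1ne : θ (monomial (mon 1) 1) ≠ 0 := by
    rw [hθ1]
    exact mul_ne_zero hne (Finset.prod_ne_zero_iff.mpr fun c _ => h0 c c.2)
  have hmem1 : mon 1 ∈ N.det.support := by
    rw [mem_support_iff, hcoeff]; exact one_ne_zero
  rcases hBP N.det hdet (mon 1) hmem1 with h | ⟨m', hm', hm'ne, κ, hκ, hκm⟩
  · exact absurd h hθ1ne
  -- m' comes from a permutation
  obtain ⟨π, hπ⟩ : ∃ π, mon π = m' := by
    by_contra hcon
    push Not at hcon
    rw [mem_support_iff] at hm'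
    apply hm'
    rw [hN, coeff_sum]
    refine Finset.sum_eq_zero fun π _ => ?_
    rw [← map_intCast (MvPolynomial.C : K →+* MvPolynomial ι K), coeff_C_mul, coeff_monomial,
      if_neg (hcon π), mul_zero]
  have hπ1 : π ≠ 1 := by rintro rfl; exact hm'ne hπ.symm
  have heq : θ (monomial (mon 1) 1) = κ • ∏ r, θ (X (v (row r) (col (π r)))) := by
    have h1 : θ (monomial (mon 1) 1 - monomial m' κ) = 0 := hκm
    rw [map_sub, sub_eq_zero] at h1
    rw [h1, ← hθmon, hπ, ← map_smul, smul_monomial, smul_eq_mul, mul_one]
  have hprodne : ∏ r, θ (X (v (row r) (col (π r)))) ≠ 0 := by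
    intro h
    rw [h, smul_zero] at heq
    exact hθ1ne heq
  have hfac : ∀ r, θ (X (v (row r) (col (π r)))) ≠ 0 := fun r =>
    Finset.prod_ne_zero_iff.mp hprodne r (Finset.mem_univ _)
  -- degrees
  have hd_one : d 1 = 0 := by
    have := hd 1 1 one_ne_zero one_ne_zero
    rw [mul_one] at this
    omega
  have hdprod : ∀ (s : Finset C) (g : C → B), (∀ r, g r ≠ 0) →
      d (∏ r ∈ s, g r) = ∑ r ∈ s, d (g r) := by
    intro s g hg
    induction s using Finset.induction_on with
    | empty => rw [Finset.prod_empty, Finset.sum_empty, hd_one]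
    | insert a s ha ih =>
      rw [Finset.prod_insert ha, Finset.sum_insert ha, hd _ _ (hg a)
        (Finset.prod_ne_zero_iff.mpr fun r _ => hg r), ih]
  have hdL : d (θ (monomial (mon 1) 1)) = d (θ (X (v i j))) := by
    rw [hθ1, hd _ _ hne (Finset.prod_ne_zero_iff.mpr fun (c : C) _ => h0 c c.2),
      hdprod _ (fun c : C => θ (X (v c c))) (fun c => h0 c c.2),
      Finset.sum_eq_zero (fun (c : C) _ => hd0 c c.2), add_zero]
  have hdR : d (θ (monomial (mon 1) 1)) = d (θ (X (v i (col (π none))))) +
      ∑ c : C, d (θ (X (v c (col (π (some c)))))) := by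
    rw [heq, hdK _ _ hκ, Fintype.prod_option,
      hd _ _ (hfac none) (Finset.prod_ne_zero_iff.mpr fun c _ => hfac (some c)),
      hdprod _ (fun c : C => θ (X (v (row (some c)) (col (π (some c)))))) (fun c => hfac (some c))]
    rfl
  have hsum := hdL.symm.trans hdR
  rcases hpn : π none with _ | c
  · -- π fixes none: contradiction
    exfalso
    rw [hpn] at hsum
    have h1 : ∑ c : C, d (θ (X (v c (col (π (some c)))))) = 0 := by
      have : col none = j := rfl
      rw [this] at hsum
      omega
    apply hπ1
    ext1 r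
    rcases r with _ | c
    · rw [hpn]; rfl
    · have h2 := (Finset.sum_eq_zero_iff.mp h1) c (Finset.mem_univ _)
      by_contra hne'
      have h3 : (c : V) ≠ col (π (some c)) := by
        intro h
        apply hne'
        have : π (some c) = some c := (hcol (some c) _ h).symm
        rw [this]; rfl
      have := hd1 c c.2 _ h3 (hfac (some c))
      omega
  · -- π none = some c
    refine ⟨c, c.2, κ, hκ, ?_⟩
    have hic : θ (X (v i c)) ≠ 0 := by
      have := hfac none
      rw [hpn] at this
      exact this
    have h2 := hd2 c c.2 hic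
    rw [hpn] at hsum
    have h3 : ∑ c : C, d (θ (X (v c (col (π (some c)))))) ≤ 1 := by
      have : col (some c) = c := rfl
      rw [this] at hsum
      omega
    have hc1 : (c : V) ≠ col (π (some c)) := by
      intro h
      have h4 : π (some c) = some c := (hcol (some c) _ h).symm
      rw [← hpn] at h4
      have h5 := π.injective h4
      rw [hpn] at h5
      cases h5
    have hc2 := hd1 c c.2 _ hc1 (hfac (some c))
    -- all others are fixed
    have hfix : ∀ c' : C, c' ≠ c → π (some c') = some c' := by
      intro c' hc'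
      by_contra hne'
      have h6 : (c' : V) ≠ col (π (some c')) := fun h => hne' (hcol (some c') _ h).symm
      have h7 := hd1 c' c'.2 _ h6 (hfac (some c'))
      have h8 : d (θ (X (v c (col (π (some c)))))) + d (θ (X (v c' (col (π (some c')))))) ≤
          ∑ c : C, d (θ (X (v c (col (π (some c)))))) := by
        rw [← Finset.sum_pair (f := fun c : C => d (θ (X (v c (col (π (some c))))))) hc'.symm]
        exact Finset.sum_le_sum_of_subset (Finset.subset_univ _)
      omega
    have hπc : π (some c) = none := by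
      obtain ⟨r, hr⟩ := π.surjective none
      rcases r with _ | r
      · rw [hpn] at hr; cases hr
      · by_cases hrc : r = c
        · rw [← hrc]; exact hr
        · rw [hfix r hrc] at hr; cases hr
    -- cancel
    rw [hθ1, Fintype.prod_option, hpn] at heq
    rw [← Finset.mul_prod_erase Finset.univ (fun c : C => θ (X (v c c))) (Finset.mem_univ c),
      ← Finset.mul_prod_erase Finset.univ
        (fun c : C => θ (X (v (row (some c)) (col (π (some c)))))) (Finset.mem_univ c)] at heq
    have h9 : ∏ x ∈ Finset.univ.erase c, θ (X (v (row (some x)) (col (π (some x))))) =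
        ∏ x ∈ Finset.univ.erase c, θ (X (v x x)) := by
      refine Finset.prod_congr rfl fun x hx => ?_
      rw [hfix x (Finset.ne_of_mem_erase hx)]
      rfl
    rw [h9, hπc] at heq
    have h10 : ∏ x ∈ Finset.univ.erase c, θ (X (v x x)) ≠ 0 :=
      Finset.prod_ne_zero_iff.mpr fun x _ => h0 x x.2
    have h11 : (θ (X (v i j)) * θ (X (v c c))) * ∏ x ∈ Finset.univ.erase c, θ (X (v x x)) =
        (κ • (θ (X (v i c)) * θ (X (v c j)))) * ∏ x ∈ Finset.univ.erase c, θ (X (v x x)) := by
      rw [mul_assoc, heq, smul_mul_assoc, mul_assoc]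
      rfl
    exact mul_right_cancel₀ h10 h11

end

end Pool.Agent.Q84.Trek
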