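import Pool.Agent.Q84.Trek.Rule
import Pool.Agent.Q84.Trek.Extract

set_option autoImplicit false

/-!
# Lowest degree parts
-/

namespace Pool.Agent.Q84.Trek

open MvPolynomial

section tau
variable {α β K : Type*} [Field K]

/-- Multiply the second set of variables by a new variable. -/
noncomputable def tau : MvPolynomial (α ⊕ β) K →ₐ[K] Polynomial (MvPolynomial (α ⊕ β) K) :=
  aeval (Sum.elim (fun i => Polynomial.C (X (Sum.inl i)))
    (fun e => Polynomial.C (X (Sum.inr e)) * Polynomial.X))

theorem tau_inl (i : α) : tau (X (Sum.inl i) : MvPolynomial (α ⊕ β) K) =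
    Polynomial.C (X (Sum.inl i)) := by
  rw [tau, aeval_X]; rfl

theorem tau_inr (i : β) : tau (X (Sum.inr i) : MvPolynomial (α ⊕ β) K) =
    Polynomial.C (X (Sum.inr i)) * Polynomial.X := by
  rw [tau, aeval_X]; rfl

theorem tau_eval (f : MvPolynomial (α ⊕ β) K) : (tau f).eval 1 = f := by
  have h : ((Polynomial.aeval (R := MvPolynomial (α ⊕ β) K) (1 : MvPolynomial (α ⊕ β) K)).restrictScalars
      K).comp tau = AlgHom.id K _ := by
    apply MvPolynomial.algHom_ext
    rintro (i | i)
    · simp [tau_inl]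
    · simp [tau_inr]
  have := congrArg (fun g => g f) h
  simpa [Polynomial.aeval_def, Polynomial.eval₂_eq_eval_map] using this

theorem tau_inj (f : MvPolynomial (α ⊕ β) K) (h : tau f = 0) : f = 0 := by
  rw [← tau_eval f, h, Polynomial.eval_zero]

/-- The lowest degree in the second set of variables. -/
noncomputable def ord (f : MvPolynomial (α ⊕ β) K) : ℕ := (tau f).natTrailingDegree

/-- The part of lowest degree in the second set of variables. -/
noncomputable def lo (f : MvPolynomial (α ⊕ β) K) : MvPolynomial (α ⊕ β) K :=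
  (tau f).trailingCoeff

theorem ord_mul (x y : MvPolynomial (α ⊕ β) K) (hx : x ≠ 0) (hy : y ≠ 0) :
    ord (x * y) = ord x + ord y := by
  rw [ord, map_mul, Polynomial.natTrailingDegree_mul (fun h => hx (tau_inj _ h))
    (fun h => hy (tau_inj _ h))]
  rfl

theorem ord_C (c : K) : ord (C c : MvPolynomial (α ⊕ β) K) = 0 := by
  have : tau (C c : MvPolynomial (α ⊕ β) K) = Polynomial.C (C c) := by
    rw [tau, aeval_C]; rfl
  rw [ord, this, Polynomial.natTrailingDegree_C]

theorem ord_smul (c : K) (x : MvPolynomial (α ⊕ β) K) (hc : c ≠ 0) : ord (c • x) = ord x := by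
  by_cases hx : x = 0
  · rw [hx, smul_zero]
  rw [smul_eq_C_mul, ord_mul _ _ (by rwa [Ne, C_eq_zero]) hx, ord_C, zero_add]

theorem ord_inl (i : α) : ord (X (Sum.inl i) : MvPolynomial (α ⊕ β) K) = 0 := by
  rw [ord, tau_inl, Polynomial.natTrailingDegree_C]

theorem lo_mul (x y : MvPolynomial (α ⊕ β) K) : lo (x * y) = lo x * lo y := by
  rw [lo, map_mul, Polynomial.trailingCoeff_mul]
  rfl

theorem lo_inl (i : α) : lo (X (Sum.inl i) : MvPolynomial (α ⊕ β) K) = X (Sum.inl i) := by
  rw [lo, tau_inl, Polynomial.trailingCoeff, Polynomial.natTrailingDegree_C,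
    Polynomial.coeff_C_zero]

theorem lo_zero : lo (0 : MvPolynomial (α ⊕ β) K) = 0 := by
  rw [lo, map_zero, Polynomial.trailingCoeff_zero]

theorem lo_eq_zero {x : MvPolynomial (α ⊕ β) K} : lo x = 0 ↔ x = 0 := by
  constructor
  · intro h
    exact tau_inj _ (Polynomial.trailingCoeff_eq_zero.mp h)
  · rintro rfl; exact lo_zero

theorem lo_C (c : K) : lo (C c : MvPolynomial (α ⊕ β) K) = C c := by
  have : tau (C c : MvPolynomial (α ⊕ β) K) = Polynomial.C (C c) := by
    rw [tau, aeval_C]; rfl
  rw [lo, this, Polynomial.trailingCoeff, Polynomial.natTrailingDegree_C, Polynomial.coeff_C_zero]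

theorem lo_smul (c : K) (x : MvPolynomial (α ⊕ β) K) : lo (c • x) = c • lo x := by
  rw [smul_eq_C_mul, smul_eq_C_mul, lo_mul, lo_C]

theorem lo_pow (x : MvPolynomial (α ⊕ β) K) (k : ℕ) : lo (x ^ k) = lo x ^ k := by
  induction k with
  | zero =>
    rw [pow_zero, pow_zero, show (1 : MvPolynomial (α ⊕ β) K) = C 1 from C_1.symm, lo_C]
  | succ k ih => rw [pow_succ, pow_succ, lo_mul, ih]

end tau

variable {n : ℕ} {E : Fin n → Fin n → Prop}

theorem tau_edgeVar (x y : Fin n) : tau (edgeVar E x y) =
    Polynomial.C (edgeVar E x y) * Polynomial.X := by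
  unfold edgeVar
  split_ifs with h h'
  · exact tau_inr _
  · exact tau_inr _
  · rw [map_zero, map_zero, zero_mul]

theorem tau_edgeProd : ∀ (P : List (Fin n)), tau (edgeProd E P) =
    Polynomial.C (edgeProd E P) * Polynomial.X ^ (P.length - 1) := by
  intro P
  induction P with
  | nil => simp [edgeProd]
  | cons x l ih =>
    rcases l with _ | ⟨y, l⟩
    · simp [edgeProd]
    · rw [edgeProd, map_mul, tau_edgeVar, ih, map_mul]
      simp only [List.length_cons, Nat.add_sub_cancel]
      ring

theorem tau_wt (P : List (Fin n)) : tau (wt E P) =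
    Polynomial.C (wt E P) * Polynomial.X ^ (P.length - 1) := by
  rw [wt, map_mul, tau_edgeProd, map_mul]
  rcases P.min? with _ | t
  · simp
  · simp only [Option.elim]
    rw [tau_inl]; ring

/-- The sum over the shortest simple treks between two vertices. -/
noncomputable def G (E : Fin n → Fin n → Prop) (i j : Fin n) : MvPolynomial (Par E) ℂ :=
  ∑ᶠ P ∈ S E i j, wt E P

theorem S_subset (i j : Fin n) : S E i j ⊆ T E i j := fun _ h => h.1

theorem S_finite (i j : Fin n) : (S E i j).Finite := (trek_finite i j).subset (S_subset i j)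

theorem S_nonempty {i j : Fin n} (h : (T E i j).Nonempty) : (S E i j).Nonempty := by
  obtain ⟨P, hP, hmin⟩ := Set.exists_min_image (T E i j) List.length (trek_finite i j) h
  exact ⟨P, hP, hmin⟩

/-- Evaluation at the point all of whose coordinates are one. -/
noncomputable def ev : MvPolynomial (Par E) ℂ →ₐ[ℂ] ℂ := aeval fun _ => 1

theorem ev_edgeProd : ∀ (P : List (Fin n)), P.IsChain (fun x y => E x y ∨ E y x) →
    ev (edgeProd E P) = 1 := by
  intro P
  induction P with
  | nil => intro _; simp [edgeProd]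
  | cons x l ih =>
    rcases l with _ | ⟨y, l⟩
    · intro _; simp [edgeProd]
    · intro h
      rw [List.isChain_cons_cons] at h
      rw [edgeProd, map_mul, ih h.2, mul_one, edgeVar]
      split_ifs with h1 h2
      · simp [ev]
      · simp [ev]
      · exact absurd h.1 (not_or.mpr ⟨h1, h2⟩)

theorem ev_wt {i j : Fin n} {P : List (Fin n)} (hP : P ∈ T E i j) : ev (wt E P) = 1 := by
  rw [wt, map_mul, ev_edgeProd P hP.path, mul_one]
  rcases h : P.min? with _ | t
  · rw [List.min?_eq_none_iff] at h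
    subst h
    exact absurd hP.head (by simp)
  · simp [ev]

theorem ev_G (i j : Fin n) : ev (G E i j) = ((S_finite (E := E) i j).toFinset.card : ℂ) := by
  rw [G, finsum_mem_eq_finite_toFinset_sum _ (S_finite i j), map_sum,
    Finset.sum_congr rfl (g := fun _ => (1 : ℂ)), Finset.sum_const, nsmul_eq_mul, mul_one]
  intro P hP
  exact ev_wt (S_subset i j ((Set.Finite.mem_toFinset _).mp hP))

theorem G_ne_zero {i j : Fin n} (h : (T E i j).Nonempty) : G E i j ≠ 0 := by
  intro h0
  have h1 := ev_G (E := E) i j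
  rw [h0, map_zero] at h1
  have h2 : (S_finite (E := E) i j).toFinset.card = 0 := by exact_mod_cast h1.symm
  rw [Finset.card_eq_zero] at h2
  obtain ⟨P, hP⟩ := S_nonempty h
  have : P ∈ (S_finite (E := E) i j).toFinset := (Set.Finite.mem_toFinset _).mpr hP
  rw [h2] at this
  simp at this

theorem length_pos {i j : Fin n} {P : List (Fin n)} (hP : P ∈ T E i j) : 0 < P.length := by
  rcases P with _ | ⟨x, l⟩
  · exact absurd hP.head (by simp)
  · simp

theorem coeff_tau_F (i j : Fin n) (m : ℕ) : (tau (F E i j)).coeff m =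
    ∑ P ∈ (trek_finite (E := E) i j).toFinset, if m = P.length - 1 then wt E P else 0 := by
  rw [F, finsum_mem_eq_finite_toFinset_sum _ (trek_finite i j), map_sum,
    Polynomial.finsetSum_coeff]
  refine Finset.sum_congr rfl fun P _ => ?_
  rw [tau_wt, Polynomial.coeff_C_mul_X_pow]

theorem ord_lo_F {i j : Fin n} {P : List (Fin n)} (hP : P ∈ S E i j) :
    ord (F E i j) = P.length - 1 ∧ lo (F E i j) = G E i j := by
  classical
  have h1 : (tau (F E i j)).coeff (P.length - 1) = G E i j := by
    rw [coeff_tau_F, G, finsum_mem_eq_finite_toFinset_sum _ (S_finite i j), ← Finset.sum_filter]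
    refine Finset.sum_congr ?_ fun _ _ => rfl
    ext Q
    simp only [Finset.mem_filter, Set.Finite.mem_toFinset]
    constructor
    · rintro ⟨hQ, hlen⟩
      refine ⟨hQ, fun R hR => ?_⟩
      have h2 := length_pos hQ
      have h3 := length_pos hP.1
      have h4 := hP.2 R hR
      omega
    · intro hQ
      refine ⟨hQ.1, ?_⟩
      have h2 := hQ.2 P hP.1
      have h3 := hP.2 Q hQ.1
      omega
  have h2 : ∀ m < P.length - 1, (tau (F E i j)).coeff m = 0 := by
    intro m hm
    rw [coeff_tau_F]
    refine Finset.sum_eq_zero fun Q hQ => ?_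
    rw [if_neg]
    have h3 := hP.2 Q ((Set.Finite.mem_toFinset _).mp hQ)
    omega
  have hne : G E i j ≠ 0 := G_ne_zero ⟨P, hP.1⟩
  have h3 : (tau (F E i j)) ≠ 0 := by
    intro h; rw [h, Polynomial.coeff_zero] at h1; exact hne h1.symm
  have h4 : ord (F E i j) = P.length - 1 :=
    le_antisymm (Polynomial.natTrailingDegree_le_of_ne_zero (by rw [h1]; exact hne))
      (Polynomial.le_natTrailingDegree h3 h2)
  refine ⟨h4, ?_⟩
  rw [lo, Polynomial.trailingCoeff, show (tau (F E i j)).natTrailingDegree = P.length - 1 from h4,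
    h1]

theorem F_of_empty {i j : Fin n} (h : ¬ (T E i j).Nonempty) : F E i j = 0 := by
  rw [Set.not_nonempty_iff_eq_empty] at h
  rw [F, h, finsum_mem_empty]

theorem G_of_empty {i j : Fin n} (h : ¬ (T E i j).Nonempty) : G E i j = 0 := by
  rw [Set.not_nonempty_iff_eq_empty] at h
  have : S E i j = ∅ := Set.subset_eq_empty (S_subset i j) h
  rw [G, this, finsum_mem_empty]

theorem lo_F (i j : Fin n) : lo (F E i j) = G E i j := by
  by_cases h : (T E i j).Nonempty
  · obtain ⟨P, hP⟩ := S_nonempty h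
    exact (ord_lo_F hP).2
  · rw [F_of_empty h, G_of_empty h, lo_zero]

theorem nonempty_of_F {i j : Fin n} (h : F E i j ≠ 0) : (T E i j).Nonempty := by
  by_contra hcon
  exact h (F_of_empty hcon)

theorem F_ne_zero {i j : Fin n} (h : (T E i j).Nonempty) : F E i j ≠ 0 := by
  intro h0
  have := lo_F (E := E) i j
  rw [h0, lo_zero] at this
  exact G_ne_zero h this.symm

theorem ord_pos {x y : Fin n} (hxy : x ≠ y) (h : F E x y ≠ 0) : 1 ≤ ord (F E x y) := by
  obtain ⟨P, hP⟩ := S_nonempty (nonempty_of_F h)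
  rw [(ord_lo_F hP).1]
  have h1 := hP.1
  rcases P with _ | ⟨a, _ | ⟨b, l⟩⟩
  · exact absurd h1.head (by simp)
  · exfalso
    have h2 := h1.head
    have h3 := h1.last
    simp at h2 h3
    exact hxy (h2.symm.trans h3)
  · simp

theorem ord_step (hE : ∀ i j, E i j → i < j) {i j c : Fin n} (hij : i < j) (hc : E c j)
    (h : F E i c ≠ 0) : ord (F E i j) ≤ ord (F E i c) + 1 := by
  rw [F_comm hE i c] at h ⊢
  rw [F_comm hE i j]
  obtain ⟨P, hP⟩ := S_nonempty (nonempty_of_F h)
  have h1 : j :: P ∈ T E j i := (trek_cons_iff hE hij).mpr ⟨c, hc, P, hP.1, rfl⟩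
  obtain ⟨Q, hQ⟩ := S_nonempty ⟨_, h1⟩
  rw [(ord_lo_F hP).1, (ord_lo_F hQ).1]
  have h2 := hQ.2 _ h1
  have h3 := length_pos hP.1
  simp only [List.length_cons] at h2
  omega

end Pool.Agent.Q84.Trek
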