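import Mathlib

set_option autoImplicit false

/-!
# Ideals with the binomial property
-/

namespace Pool.Agent.Q84.Trek

open MvPolynomial

/-- The binomial property: every monomial of every element of the ideal is either in the ideal or
congruent to a nonzero multiple of another monomial of the element. -/
def BP {ι K : Type*} [Field K] (I : Ideal (MvPolynomial ι K)) : Prop :=
  ∀ f ∈ I, ∀ m ∈ f.support, monomial m (1 : K) ∈ I ∨
    ∃ m' ∈ f.support, m' ≠ m ∧ ∃ c : K, c ≠ 0 ∧ monomial m (1 : K) - monomial m' c ∈ I

/-- The kernel of a homomorphism to a monoid algebra which sends every variable to a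
(scalar multiple of a) monomial has the binomial property. -/
theorem bp_ker {ι K M : Type*} [Field K] [AddCommMonoid M]
    (θ : MvPolynomial ι K →ₐ[K] AddMonoidAlgebra K M)
    (h : ∀ p, ∃ (u : M) (c : K), θ (X p) = AddMonoidAlgebra.single u c) :
    BP (RingHom.ker θ) := by
  classical
  have hm : ∀ m : ι →₀ ℕ, ∃ (u : M) (c : K), θ (monomial m 1) = AddMonoidAlgebra.single u c := by
    intro m
    induction m using Finsupp.induction with
    | zero => exact ⟨0, 1, by
        rw [show (monomial (0 : ι →₀ ℕ) (1 : K)) = 1 from rfl, map_one]; rfl⟩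
    | single_add a b f ha hb ih =>
      obtain ⟨u, c, hu⟩ := h a
      obtain ⟨u', c', hu'⟩ := ih
      refine ⟨b • u + u', c ^ b * c', ?_⟩
      rw [show (monomial (Finsupp.single a b + f) (1 : K)) = X a ^ b * monomial f 1 by
        rw [X_pow_eq_monomial, monomial_mul, one_mul], map_mul, map_pow, hu, hu',
        AddMonoidAlgebra.single_pow, AddMonoidAlgebra.single_mul_single]
  choose u c hu using hm
  intro f hf m hmf
  by_cases h0 : c m = 0
  · left
    rw [RingHom.mem_ker, hu, h0, AddMonoidAlgebra.single_zero]
  right
  by_contra hcon
  push Not at hcon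
  -- all other monomials of f have different exponent or are killed
  have key : ∀ m' ∈ f.support, m' ≠ m → c m' ≠ 0 → u m' ≠ u m := by
    intro m' hm' hne hc hu'
    refine hcon m' hm' hne (c m * (c m')⁻¹) (mul_ne_zero h0 (inv_ne_zero hc)) ?_
    rw [RingHom.mem_ker, map_sub, hu m, show (monomial m' (c m * (c m')⁻¹)) =
      (c m * (c m')⁻¹) • monomial m' (1 : K) by rw [smul_monomial, smul_eq_mul, mul_one],
      map_smul, hu m', hu', AddMonoidAlgebra.smul_single, smul_eq_mul, mul_assoc,
      inv_mul_cancel₀ hc, mul_one, sub_self]
  have h1 : (θ f).coeff (u m) = 0 := by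
    rw [RingHom.mem_ker] at hf
    rw [hf]; rfl
  have h2 : θ f = ∑ m' ∈ f.support, AddMonoidAlgebra.single (u m') (coeff m' f * c m') := by
    conv_lhs => rw [f.as_sum]
    rw [map_sum]
    refine Finset.sum_congr rfl fun m' _ => ?_
    rw [show (monomial m' (coeff m' f)) = (coeff m' f) • monomial m' (1 : K) by
      rw [smul_monomial, smul_eq_mul, mul_one], map_smul, hu, AddMonoidAlgebra.smul_single,
      smul_eq_mul]
  rw [h2, AddMonoidAlgebra.coeff_sum, Finsupp.finsetSum_apply, Finset.sum_eq_single m] at h1
  · rw [AddMonoidAlgebra.coeff_single, Finsupp.single_eq_same] at h1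
    exact mul_ne_zero (mem_support_iff.mp hmf) h0 h1
  · intro m' hm' hne
    rw [AddMonoidAlgebra.coeff_single]
    by_cases hc : c m' = 0
    · rw [hc, mul_zero, Finsupp.single_zero]; rfl
    · exact Finsupp.single_eq_of_ne (key m' hm' hne hc).symm
  · intro h; exact absurd hmf h

/-- An ideal generated by (scalar multiples of) differences of terms has the binomial property. -/
theorem bp_span {ι K : Type*} [Field K] (S : Set (MvPolynomial ι K))
    (h : ∀ f ∈ S, ∃ (m m' : ι →₀ ℕ) (a b : K), f = monomial m a + monomial m' b) :
    BP (Ideal.span S) := by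
  classical
  set I := Ideal.span S with hI
  -- `rel m m'`: congruent up to a nonzero scalar
  let rel : (ι →₀ ℕ) → (ι →₀ ℕ) → Prop := fun m m' =>
    ∃ c : K, c ≠ 0 ∧ monomial m (1 : K) - monomial m' c ∈ I
  -- the part of `f` supported on the class of `m0`
  intro f hf m0 hm0
  by_cases hmem : monomial m0 (1 : K) ∈ I
  · exact Or.inl hmem
  right
  let pr : MvPolynomial ι K →ₗ[K] MvPolynomial ι K :=
    { toFun := fun g => ∑ m ∈ g.support.filter (fun m => rel m0 m), monomial m (coeff m g)
      map_add' := by
        intro g g'
        ext m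
        simp only [coeff_sum, coeff_add, coeff_monomial, Finset.sum_ite_eq', Finset.mem_filter,
          mem_support_iff]
        by_cases hr : rel m0 m
        · by_cases h1 : coeff m g = 0 <;> by_cases h2 : coeff m g' = 0 <;>
            simp [hr, h1, h2]
          exact fun h => h.symm
        · simp [hr]
      map_smul' := by
        intro a g
        ext m
        simp only [coeff_sum, coeff_smul, coeff_monomial, Finset.sum_ite_eq', Finset.mem_filter,
          mem_support_iff, RingHom.id_apply]
        by_cases hr : rel m0 m
        · by_cases h1 : coeff m g = 0 <;> simp [hr, h1]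
        · simp [hr] }
  have hprc : ∀ g m, coeff m (pr g) = if rel m0 m then coeff m g else 0 := by
    intro g m
    simp only [pr, LinearMap.coe_mk, AddHom.coe_mk, coeff_sum, coeff_monomial,
      Finset.sum_ite_eq', Finset.mem_filter, mem_support_iff]
    by_cases hr : rel m0 m
    · by_cases h1 : coeff m g = 0 <;> simp [hr, h1]
    · simp [hr]
  have hprm : ∀ m a, pr (monomial m a) = if rel m0 m then monomial m a else 0 := by
    intro m a
    ext m'
    rw [hprc]
    by_cases hr : rel m0 m
    · rw [if_pos hr]
      by_cases hmm : m = m'
      · subst hmm; rw [if_pos hr]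
      · rw [coeff_monomial, if_neg hmm, ite_self]
    · rw [if_neg hr, coeff_zero]
      by_cases hmm : m = m'
      · subst hmm; rw [if_neg hr]
      · rw [coeff_monomial, if_neg hmm, ite_self]
  -- projection preserves I
  have hpr : ∀ g ∈ I, pr g ∈ I := by
    -- binomials
    have hb : ∀ (m m' : ι →₀ ℕ) (a b : K), monomial m a + monomial m' b ∈ I →
        pr (monomial m a + monomial m' b) ∈ I := by
      intro m m' a b hab
      rw [map_add, hprm, hprm]
      -- general transfer
      have htr : ∀ (m m' : ι →₀ ℕ) (a b : K), monomial m a + monomial m' b ∈ I → a ≠ 0 → b ≠ 0 →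
          rel m0 m → rel m0 m' := by
        rintro m m' a b hab ha hb ⟨c, hc, hcm⟩
        refine ⟨- (c * a⁻¹ * b), by
          rw [neg_ne_zero]; exact mul_ne_zero (mul_ne_zero hc (inv_ne_zero ha)) hb, ?_⟩
        have : monomial m0 (1 : K) - monomial m' (- (c * a⁻¹ * b)) =
            (monomial m0 (1 : K) - monomial m c) + C (c * a⁻¹) *
              (monomial m a + monomial m' b) := by
          rw [mul_add, C_mul_monomial, C_mul_monomial, mul_assoc c a⁻¹ a, inv_mul_cancel₀ ha,
            mul_one, map_neg]
          ring
        rw [this]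
        exact I.add_mem hcm (I.mul_mem_left _ hab)
      have hsing : ∀ (m : ι →₀ ℕ) (a : K), monomial m a ∈ I → a ≠ 0 → ¬ rel m0 m := by
        rintro m a hma ha ⟨c, hc, hcm⟩
        apply hmem
        have : monomial m0 (1 : K) = (monomial m0 (1 : K) - monomial m c) +
            C (c * a⁻¹) * monomial m a := by
          rw [C_mul_monomial, mul_assoc c, inv_mul_cancel₀ ha, mul_one]
          ring
        rw [this]
        exact I.add_mem hcm (I.mul_mem_left _ hma)
      by_cases ha : a = 0
      · subst ha
        rw [map_zero, zero_add] at hab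
        rw [map_zero, ite_self, zero_add]
        split_ifs
        · exact hab
        · exact I.zero_mem
      by_cases hb : b = 0
      · subst hb
        rw [map_zero, add_zero] at hab
        rw [map_zero, ite_self, add_zero]
        split_ifs
        · exact hab
        · exact I.zero_mem
      by_cases h1 : rel m0 m
      · have h2 := htr m m' a b hab ha hb h1
        rw [if_pos h1, if_pos h2]; exact hab
      · have h2 : ¬ rel m0 m' := fun h2 => h1 (htr m' m b a (by rwa [add_comm]) hb ha h2)
        rw [if_neg h1, if_neg h2, add_zero]; exact I.zero_mem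
    -- every element of I is a K-combination of binomials in I
    have hall : ∀ y ∈ I, y ∈ Submodule.span K {z | z ∈ I ∧ ∃ (m m' : ι →₀ ℕ) (a b : K),
        z = monomial m a + monomial m' b} := by
      have hmul : ∀ (r z : MvPolynomial ι K), z ∈ Submodule.span K {z | z ∈ I ∧
          ∃ (m m' : ι →₀ ℕ) (a b : K), z = monomial m a + monomial m' b} →
          r * z ∈ Submodule.span K {z | z ∈ I ∧ ∃ (m m' : ι →₀ ℕ) (a b : K),
            z = monomial m a + monomial m' b} := by
        intro r z hz
        induction hz using Submodule.span_induction with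
        | mem z hz =>
          obtain ⟨hz, m, m', a, b, rfl⟩ := hz
          induction r using MvPolynomial.induction_on' with
          | monomial u c =>
            refine Submodule.subset_span ⟨I.mul_mem_left _ hz, u + m, u + m', c * a, c * b, ?_⟩
            rw [mul_add, monomial_mul, monomial_mul]
          | add p q hp hq => rw [add_mul]; exact Submodule.add_mem _ hp hq
        | zero => rw [mul_zero]; exact Submodule.zero_mem _
        | add z w _ _ h1 h2 => rw [mul_add]; exact Submodule.add_mem _ h1 h2
        | smul c z _ h1 =>
          rw [mul_smul_comm]; exact Submodule.smul_mem _ c h1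
      intro y hy
      rw [hI] at hy
      induction hy using Submodule.span_induction with
      | mem z hz => exact Submodule.subset_span ⟨Ideal.subset_span hz, h z hz⟩
      | zero => exact Submodule.zero_mem _
      | add z w _ _ h1 h2 => exact Submodule.add_mem _ h1 h2
      | smul r z _ h1 => exact hmul r z h1
    intro g hg
    have h3 := hall g hg
    clear hg
    induction h3 using Submodule.span_induction with
    | mem z hz =>
      obtain ⟨hz, m, m', a, b, rfl⟩ := hz
      exact hb m m' a b hz
    | zero => rw [map_zero]; exact I.zero_mem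
    | add z w _ _ h1 h2 => rw [map_add]; exact I.add_mem h1 h2
    | smul c z _ h1 =>
      rw [map_smul, smul_eq_C_mul]; exact I.mul_mem_left _ h1
  by_contra hcon
  push Not at hcon
  have hrefl : rel m0 m0 := ⟨1, one_ne_zero, by rw [sub_self]; exact I.zero_mem⟩
  have h4 : pr f = monomial m0 (coeff m0 f) := by
    ext m
    rw [hprc, coeff_monomial]
    by_cases hm : m0 = m
    · subst hm; rw [if_pos hrefl, if_pos rfl]
    · rw [if_neg hm]
      by_cases hr : rel m0 m
      · rw [if_pos hr]
        by_contra hne
        obtain ⟨c, hc, hcm⟩ := hr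
        exact hcon m (mem_support_iff.mpr hne) (fun h => hm h.symm) c hc hcm
      · rw [if_neg hr]
  have h5 := hpr f hf
  rw [h4] at h5
  apply hmem
  have h6 : monomial m0 (1 : K) = C (coeff m0 f)⁻¹ * monomial m0 (coeff m0 f) := by
    rw [C_mul_monomial, inv_mul_cancel₀ (mem_support_iff.mp hm0)]
  rw [h6]
  exact I.mul_mem_left _ h5

end Pool.Agent.Q84.Trek
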