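import Mathlib

set_option autoImplicit false

/-!
# Gaussian directed acyclic graph models: the simple trek rule and the shortest trek map

A directed acyclic graph on the vertex set `Fin n` is given by its edge relation `E`, labelled so
that `E i j` implies `i < j`.
-/

namespace Pool.Agent.Q84.Trek

open MvPolynomial

variable {n : ℕ}

/-- `P` is (the list of the vertices of) a simple trek between `i` and `j`: a path from `i` to `j`,
made of edges of any orientation, which repeats no vertex and has no collider (a vertex of the path
into which both path edges at that vertex point). -/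
structure IsTrek (E : Fin n → Fin n → Prop) (i j : Fin n) (P : List (Fin n)) : Prop where
  head : P.head? = some i
  last : P.getLast? = some j
  path : P.IsChain (fun x y => E x y ∨ E y x)
  nodup : P.Nodup
  nocollider : ∀ x y z, [x, y, z] <:+: P → ¬ (E x y ∧ E z y)

/-- The simple treks between `i` and `j`. -/
def T (E : Fin n → Fin n → Prop) (i j : Fin n) : Set (List (Fin n)) := {P | IsTrek E i j P}

/-- The simple treks between `i` and `j` of minimal length. -/
def S (E : Fin n → Fin n → Prop) (i j : Fin n) : Set (List (Fin n)) :=
  {P | P ∈ T E i j ∧ ∀ Q ∈ T E i j, P.length ≤ Q.length}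

/-- The variables `a_i` and `lambda_kl`, one for each edge `k → l`. -/
abbrev Par (E : Fin n → Fin n → Prop) := Fin n ⊕ {e : Fin n × Fin n // E e.1 e.2}

/-- The variables `sigma_ij`, `i ≤ j`. -/
abbrev Idx (n : ℕ) := {p : Fin n × Fin n // p.1 ≤ p.2}

open Classical in
/-- The variable of the edge joining `x` and `y`. -/
noncomputable def edgeVar (E : Fin n → Fin n → Prop) (x y : Fin n) : MvPolynomial (Par E) ℂ :=
  if h : E x y then X (Sum.inr ⟨(x, y), h⟩) else if h : E y x then X (Sum.inr ⟨(y, x), h⟩) else 0

/-- The product of the variables of the edges of a path. -/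
noncomputable def edgeProd (E : Fin n → Fin n → Prop) : List (Fin n) → MvPolynomial (Par E) ℂ
  | [] => 1
  | [_] => 1
  | x :: y :: l => edgeVar E x y * edgeProd E (y :: l)

/-- The monomial `a_top(P) * (product of the lambda_kl over the edges k → l of P)` of a trek; the
top of a trek is the vertex where its orientation changes, and this is its vertex of smallest
label. -/
noncomputable def wt (E : Fin n → Fin n → Prop) (P : List (Fin n)) : MvPolynomial (Par E) ℂ :=
  (P.min?.elim 0 fun t => X (Sum.inl t)) * edgeProd E P

/-- The simple trek rule. -/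
noncomputable def phi (E : Fin n → Fin n → Prop) :
    MvPolynomial (Idx n) ℂ →ₐ[ℂ] MvPolynomial (Par E) ℂ :=
  aeval fun p => ∑ᶠ P ∈ T E p.1.1 p.1.2, wt E P

/-- The ideal of the Gaussian model of the graph. -/
noncomputable def vanishingIdeal (E : Fin n → Fin n → Prop) : Ideal (MvPolynomial (Idx n) ℂ) :=
  RingHom.ker (phi E)

/-- The shortest trek map is defined: any two distinct vertices joined by a trek are joined by
a unique trek of minimal length. -/
def PsiDefined (E : Fin n → Fin n → Prop) : Prop :=
  ∀ i j : Fin n, i < j → (T E i j).Nonempty → ∃! P, P ∈ S E i j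

/-- The shortest trek map (the sum has just one term if `PsiDefined E` and there is a trek, and no
term if there is no trek). -/
noncomputable def psi (E : Fin n → Fin n → Prop) :
    MvPolynomial (Idx n) ℂ →ₐ[ℂ] MvPolynomial (Par E) ℂ :=
  aeval fun p => ∑ᶠ P ∈ S E p.1.1 p.1.2, wt E P

/-- The shortest trek ideal. -/
noncomputable def shortestTrekIdeal (E : Fin n → Fin n → Prop) :
    Ideal (MvPolynomial (Idx n) ℂ) :=
  RingHom.ker (psi E)

/-- An ideal is toric if it is the kernel of a homomorphism to a polynomial ring which sends every
variable to a monomial or to zero. -/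
def IsToric {ι : Type*} (I : Ideal (MvPolynomial ι ℂ)) : Prop :=
  ∃ (m : ℕ) (θ : MvPolynomial ι ℂ →ₐ[ℂ] MvPolynomial (Fin m) ℂ),
    (∀ p, θ (X p) = 0 ∨ ∃ u : Fin m →₀ ℕ, θ (X p) = monomial u 1) ∧ I = RingHom.ker θ

/-! ### Basic facts on treks -/

variable {E : Fin n → Fin n → Prop}

theorem trek_self {i : Fin n} {P : List (Fin n)} : P ∈ T E i i ↔ P = [i] := by
  constructor
  · rintro ⟨h1, h2, -, h4, -⟩
    rcases P with _ | ⟨x, l⟩
    · simp at h1
    · simp only [List.head?_cons, Option.some.injEq] at h1
      subst h1
      rcases l with _ | ⟨y, l⟩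
      · rfl
      · rw [List.getLast?_cons_cons] at h2
        have h5 : x ∈ y :: l := List.mem_of_getLast? h2
        exact absurd h5 (List.nodup_cons.mp h4).1
  · rintro rfl
    refine ⟨rfl, rfl, List.isChain_singleton _, List.nodup_singleton _, ?_⟩
    intro x y z h
    have := h.length_le
    simp at this

/-- In a trek which starts by going down (along an edge) all labels increase. -/
theorem incr (hE : ∀ i j, E i j → i < j) : ∀ (l : List (Fin n)) (x y : Fin n),
    (x :: y :: l).IsChain (fun x y => E x y ∨ E y x) →
    (∀ a b c, [a, b, c] <:+: (x :: y :: l) → ¬ (E a b ∧ E c b)) → E x y →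
    (x :: y :: l).Pairwise (· < ·) := by
  intro l
  induction l with
  | nil =>
    intro x y _ _ hxy
    simpa using hE _ _ hxy
  | cons z l ih =>
    intro x y hc hn hxy
    rw [List.isChain_cons_cons] at hc
    have hyz : E y z := by
      have h1 := hc.2
      rw [List.isChain_cons_cons] at h1
      rcases h1.1 with h | h
      · exact h
      · exact absurd ⟨hxy, h⟩ (hn x y z ⟨[], l, rfl⟩)
    have h2 := ih y z hc.2 (fun a b c h => hn a b c (h.trans (List.suffix_cons x _).isInfix)) hyz
    rw [List.pairwise_cons]
    refine ⟨?_, h2⟩
    intro w hw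
    rcases List.mem_cons.mp hw with rfl | hw'
    · exact hE _ _ hxy
    · exact (hE _ _ hxy).trans (List.rel_of_pairwise_cons h2 hw')

theorem trek_tail {i x : Fin n} {j : Fin n} {l : List (Fin n)} (h : (i :: x :: l) ∈ T E i j) :
    (x :: l) ∈ T E x j :=
  ⟨rfl, by have := h.last; rwa [List.getLast?_cons_cons] at this,
    (List.isChain_cons_cons.mp h.path).2, (List.nodup_cons.mp h.nodup).2,
    fun a b c hh => h.nocollider a b c (hh.trans (List.suffix_cons i _).isInfix)⟩

theorem trek_cons_eq {i j x : Fin n} {l : List (Fin n)} (h : (x :: l) ∈ T E i j) : x = i := by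
  have := h.head
  simpa using this

/-- Every vertex of a trek between `i` and `j` has label at most `max i j`. -/
theorem trek_le (hE : ∀ i j, E i j → i < j) : ∀ (P : List (Fin n)) (i j : Fin n),
    P ∈ T E i j → ∀ x ∈ P, x ≤ max i j := by
  intro P
  induction P with
  | nil => intro i j h; exact absurd h.head (by simp)
  | cons y l ih =>
    intro i j h x hx
    obtain rfl := trek_cons_eq h
    rcases l with _ | ⟨z, l⟩
    · rw [List.mem_singleton] at hx
      subst hx; exact le_max_left _ _
    have h1 := List.isChain_cons_cons.mp h.path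
    rcases List.mem_cons.mp hx with rfl | hx'
    · exact le_max_left _ _
    rcases h1.1 with h2 | h2
    · -- increasing
      have h3 := incr hE l y z h.path h.nocollider h2
      have hl := h.last
      have h4 : ∀ (l : List (Fin n)) (hne : l.getLast? = some j), l.Pairwise (· < ·) →
          ∀ x ∈ l, x ≤ j := by
        intro l hl hp x hx
        obtain ⟨l', rfl⟩ := List.getLast?_eq_some_iff.mp hl
        rw [List.mem_append, List.mem_singleton] at hx
        rcases hx with hx | rfl
        · exact le_of_lt ((List.pairwise_append.mp hp).2.2 x hx j (List.mem_singleton_self _))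
        · exact le_rfl
      exact (h4 _ hl h3 x hx).trans (le_max_right _ _)
    · have h3 := ih z j (trek_tail h) x hx'
      exact h3.trans (max_le_max (le_of_lt (hE _ _ h2)) le_rfl)

theorem trek_reverse {i j : Fin n} {P : List (Fin n)} (h : P ∈ T E i j) : P.reverse ∈ T E j i := by
  refine ⟨by rw [List.head?_reverse]; exact h.last, by rw [List.getLast?_reverse]; exact h.head,
    ?_, List.nodup_reverse.mpr h.nodup, ?_⟩
  · rw [List.isChain_reverse]
    exact h.path.imp fun a b hab => hab.symm
  · intro x y z hxyz hcol
    have h1 : [z, y, x] <:+: P := by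
      have := List.reverse_infix.mpr hxyz
      simpa using this
    exact h.nocollider z y x h1 ⟨hcol.2, hcol.1⟩

theorem trek_finite (i j : Fin n) : (T E i j).Finite := by
  refine (List.finite_length_le (Fin n) n).subset fun P hP => ?_
  have := hP.nodup.length_le_card
  simpa using this

/-- The treks from a sink `j`: the first step goes up to a parent of `j`. -/
theorem trek_cons_iff (hE : ∀ i j, E i j → i < j) {i j : Fin n} (hij : i < j)
    {P : List (Fin n)} :
    P ∈ T E j i ↔ ∃ c, E c j ∧ ∃ Q, Q ∈ T E c i ∧ P = j :: Q := by
  constructor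
  · intro h
    rcases P with _ | ⟨y, l⟩
    · exact absurd h.head (by simp)
    obtain rfl := trek_cons_eq h
    rcases l with _ | ⟨c, l⟩
    · have := h.last
      simp at this
      exact absurd this hij.ne'
    refine ⟨c, ?_, c :: l, trek_tail h, rfl⟩
    rcases (List.isChain_cons_cons.mp h.path).1 with h2 | h2
    · exfalso
      have h3 := incr hE l y c h.path h.nocollider h2
      have h4 : i ∈ c :: l := by
        have := h.last
        rw [List.getLast?_cons_cons] at this
        exact List.mem_of_getLast? this
      exact absurd (List.rel_of_pairwise_cons h3 h4) (not_lt_of_gt hij)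
    · exact h2
  · rintro ⟨c, hc, Q, hQ, rfl⟩
    rcases Q with _ | ⟨y, l⟩
    · exact absurd hQ.head (by simp)
    obtain rfl := trek_cons_eq hQ
    have hle := trek_le hE _ _ _ hQ
    have hlt : ∀ x ∈ y :: l, x < j := fun x hx =>
      (hle x hx).trans_lt (max_lt (hE _ _ hc) hij)
    refine ⟨rfl, by rw [List.getLast?_cons_cons]; exact hQ.last,
      List.isChain_cons_cons.mpr ⟨Or.inr hc, hQ.path⟩,
      List.nodup_cons.mpr ⟨fun h => absurd (hlt j h) (lt_irrefl j), hQ.nodup⟩, ?_⟩
    intro a b c hinf hcol
    rcases List.infix_cons_iff.mp hinf with h | h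
    · rcases l with _ | ⟨z, l⟩
      · have := h.length_le
        simp at this
      · rw [List.cons_prefix_cons, List.cons_prefix_cons, List.cons_prefix_cons] at h
        obtain ⟨rfl, rfl, rfl, -⟩ := h
        exact absurd (hE _ _ hcol.1) (not_lt_of_gt (hE _ _ hc))
    · exact hQ.nocollider a b c h hcol

end Pool.Agent.Q84.Trek
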