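import Pool.Agent.Q84.Trek.BP

set_option autoImplicit false

/-!
# The binomial property implies generation by binomials
-/

namespace Pool.Agent.Q84.Trek

open MvPolynomial

theorem span_of_bp {ι K : Type*} [Field K] {I : Ideal (MvPolynomial ι K)} (hBP : BP I) :
    I = Ideal.span {f | f ∈ I ∧ ∃ (m m' : ι →₀ ℕ) (a b : K), f = monomial m a + monomial m' b} := by
  classical
  apply le_antisymm
  · have key : ∀ (k : ℕ) (f : MvPolynomial ι K), f.support.card = k → f ∈ I →
        f ∈ Ideal.span {f | f ∈ I ∧ ∃ (m m' : ι →₀ ℕ) (a b : K),
          f = monomial m a + monomial m' b} := by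
      intro k
      induction k using Nat.strong_induction_on with
      | _ k ih =>
        intro f hk hf
        by_cases hf0 : f = 0
        · rw [hf0]; exact Ideal.zero_mem _
        obtain ⟨m, hm⟩ : f.support.Nonempty := by
          rwa [Finset.nonempty_iff_ne_empty, Ne, support_eq_empty]
        -- a binomial `b` in the ideal with leading part that of `f` at `m` and support in `f`
        obtain ⟨b, hbI, hbb, hbm, hbs⟩ : ∃ b ∈ I, (∃ (m m' : ι →₀ ℕ) (a b' : K),
            b = monomial m a + monomial m' b') ∧ coeff m b = coeff m f ∧
            ∀ m'', coeff m'' f = 0 → coeff m'' b = 0 := by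
          rcases hBP f hf m hm with h | ⟨m', hm', hne, c, hc, hcm⟩
          · refine ⟨C (coeff m f) * monomial m 1, Ideal.mul_mem_left _ _ h,
              ⟨m, m, coeff m f, 0, by rw [C_mul_monomial, mul_one, map_zero, add_zero]⟩, ?_, ?_⟩
            · rw [coeff_C_mul, coeff_monomial, if_pos rfl, mul_one]
            · intro m'' h0
              rw [coeff_C_mul, coeff_monomial]
              by_cases hmm : m = m''
              · subst hmm; exact absurd h0 (mem_support_iff.mp hm)
              · rw [if_neg hmm, mul_zero]
          · refine ⟨C (coeff m f) * (monomial m 1 - monomial m' c), Ideal.mul_mem_left _ _ hcm,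
              ⟨m, m', coeff m f, - (coeff m f * c), ?_⟩, ?_, ?_⟩
            · rw [mul_sub, C_mul_monomial, C_mul_monomial, mul_one, map_neg, sub_eq_add_neg]
            · rw [coeff_C_mul, coeff_sub, coeff_monomial, coeff_monomial, if_pos rfl, if_neg hne,
                sub_zero, mul_one]
            · intro m'' h0
              rw [coeff_C_mul, coeff_sub, coeff_monomial, coeff_monomial]
              by_cases hmm : m = m''
              · subst hmm; exact absurd h0 (mem_support_iff.mp hm)
              by_cases hmm' : m' = m''
              · subst hmm'; exact absurd h0 (mem_support_iff.mp hm')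
              rw [if_neg hmm, if_neg hmm', sub_zero, mul_zero]
        have h5 : (f - b).support.card < k := by
          rw [← hk]
          apply Finset.card_lt_card
          refine ⟨?_, fun hsub => ?_⟩
          · intro m'' hm''
            rw [mem_support_iff, coeff_sub] at hm''
            rw [mem_support_iff]
            intro h0
            rw [h0, hbs m'' h0, sub_zero] at hm''
            exact hm'' rfl
          · have := hsub hm
            rw [mem_support_iff, coeff_sub, hbm, sub_self] at this
            exact this rfl
        have h6 := ih _ h5 _ rfl (Ideal.sub_mem _ hf hbI)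
        have h7 := Ideal.add_mem _ h6 (Ideal.subset_span ⟨hbI, hbb⟩)
        rwa [sub_add_cancel] at h7
    intro f hf
    exact key _ f rfl hf
  · rw [Ideal.span_le]
    rintro f ⟨hf, -⟩
    exact hf

end Pool.Agent.Q84.Trek
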