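import Pool.Agent.Q84.Trek.Defs

set_option autoImplicit false

/-!
# The recursion for the simple trek rule
-/

namespace Pool.Agent.Q84.Trek

open MvPolynomial

variable {n : ℕ} {E : Fin n → Fin n → Prop}

theorem edgeVar_of (x y : Fin n) (h : E x y) : edgeVar E x y = X (Sum.inr ⟨(x, y), h⟩) := by
  rw [edgeVar, dif_pos h]

theorem edgeVar_comm (hE : ∀ i j, E i j → i < j) (x y : Fin n) : edgeVar E x y = edgeVar E y x := by
  unfold edgeVar
  by_cases h : E x y
  · have h' : ¬ E y x := fun h' => absurd (hE _ _ h) (not_lt_of_gt (hE _ _ h'))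
    rw [dif_pos h, dif_neg h', dif_pos h]
  · by_cases h' : E y x
    · rw [dif_neg h, dif_pos h', dif_pos h']
    · rw [dif_neg h, dif_neg h', dif_neg h', dif_neg h]

theorem edgeProd_append (x y : Fin n) : ∀ (l : List (Fin n)),
    edgeProd E (l ++ [x] ++ [y]) = edgeProd E (l ++ [x]) * edgeVar E x y := by
  intro l
  induction l with
  | nil => simp [edgeProd]
  | cons z l ih =>
    rcases l with _ | ⟨w, l⟩
    · simp [edgeProd]
    · simp only [List.cons_append, edgeProd] at ih ⊢
      rw [ih, mul_assoc]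

theorem edgeProd_reverse (hE : ∀ i j, E i j → i < j) : ∀ (l : List (Fin n)),
    edgeProd E l.reverse = edgeProd E l := by
  intro l
  induction l with
  | nil => rfl
  | cons x l ih =>
    rcases l with _ | ⟨y, l⟩
    · rfl
    · rw [List.reverse_cons, List.reverse_cons, edgeProd_append, ← List.reverse_cons, ih,
        edgeProd, edgeVar_comm hE, mul_comm]

theorem min?_reverse' (l : List (Fin n)) : l.reverse.min? = l.min? := by
  rcases h : l.min? with _ | a
  · rw [List.min?_eq_none_iff] at h ⊢
    rw [h]; rfl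
  · rw [List.min?_eq_some_iff] at h ⊢
    exact ⟨List.mem_reverse.mpr h.1, fun b hb => h.2 b (List.mem_reverse.mp hb)⟩

theorem wt_reverse (hE : ∀ i j, E i j → i < j) (l : List (Fin n)) : wt E l.reverse = wt E l := by
  rw [wt, wt, min?_reverse', edgeProd_reverse hE]

theorem wt_cons (hE : ∀ i j, E i j → i < j) {i j c : Fin n} (hij : i < j) (hc : E c j)
    {Q : List (Fin n)} (hQ : Q ∈ T E c i) :
    wt E (j :: Q) = X (Sum.inr ⟨(c, j), hc⟩) * wt E Q := by
  have hle := trek_le hE _ _ _ hQ
  have hlt : ∀ x ∈ Q, x < j := fun x hx => (hle x hx).trans_lt (max_lt (hE _ _ hc) hij)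
  have hmin : (j :: Q).min? = Q.min? := by
    rcases h : Q.min? with _ | a
    · rw [List.min?_eq_none_iff] at h
      subst h
      exact absurd hQ.head (by simp)
    · rw [List.min?_eq_some_iff] at h ⊢
      refine ⟨List.mem_cons_of_mem _ h.1, fun b hb => ?_⟩
      rcases List.mem_cons.mp hb with rfl | hb
      · exact le_of_lt (hlt a h.1)
      · exact h.2 b hb
  rcases Q with _ | ⟨y, l⟩
  · exact absurd hQ.head (by simp)
  obtain rfl := trek_cons_eq hQ
  rw [wt, wt, hmin, edgeProd, edgeVar_comm hE, edgeVar_of _ _ hc]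
  ring

theorem wt_self (i : Fin n) : wt E [i] = X (Sum.inl i) := by
  simp [wt, edgeProd]

/-- The sum over the simple treks between two vertices. -/
noncomputable def F (E : Fin n → Fin n → Prop) (i j : Fin n) : MvPolynomial (Par E) ℂ :=
  ∑ᶠ P ∈ T E i j, wt E P

theorem reverse_image (i j : Fin n) : T E j i = List.reverse '' T E i j := by
  ext P
  constructor
  · intro h
    exact ⟨P.reverse, trek_reverse h, List.reverse_reverse P⟩
  · rintro ⟨Q, hQ, rfl⟩
    exact trek_reverse hQ

theorem F_comm (hE : ∀ i j, E i j → i < j) (i j : Fin n) : F E i j = F E j i := by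
  rw [F, F, reverse_image i j, finsum_mem_image List.reverse_injective.injOn]
  exact finsum_mem_congr rfl fun P _ => (wt_reverse hE P).symm

theorem F_self (i : Fin n) : F E i i = X (Sum.inl i) := by
  have : T E i i = {[i]} := by
    ext P; exact trek_self
  rw [F, this, finsum_mem_singleton, wt_self]

open Classical in
/-- The recursion for the trek polynomials. -/
theorem F_rec (hE : ∀ i j, E i j → i < j) {i j : Fin n} (hij : i < j) :
    F E j i = ∑ c : Fin n, if h : E c j then X (Sum.inr ⟨(c, j), h⟩) * F E c i else 0 := by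
  have h1 : T E j i = ⋃ c ∈ Finset.univ.filter (fun c => E c j), (List.cons j) '' T E c i := by
    ext P
    simp only [Finset.mem_filter, Finset.mem_univ, true_and, Set.mem_iUnion, Set.mem_image,
      exists_prop]
    rw [trek_cons_iff hE hij]
    constructor
    · rintro ⟨c, hc, Q, hQ, rfl⟩; exact ⟨c, hc, Q, hQ, rfl⟩
    · rintro ⟨c, hc, Q, hQ, rfl⟩; exact ⟨c, hc, Q, hQ, rfl⟩
  rw [F, h1]
  have h2 : ∑ᶠ P ∈ ⋃ c ∈ Finset.univ.filter (fun c => E c j), (List.cons j) '' T E c i, wt E P =
      ∑ᶠ c ∈ (Finset.univ.filter (fun c => E c j) : Finset (Fin n)),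
        ∑ᶠ P ∈ (List.cons j) '' T E c i, wt E P := by
    refine finsum_mem_biUnion ?_ (Finset.finite_toSet _) fun c _ =>
      (trek_finite c i).image _
    intro c _ c' _ hcc'
    refine Set.disjoint_left.mpr ?_
    rintro P ⟨Q, hQ, rfl⟩ ⟨Q', hQ', h⟩
    apply hcc'
    have h3 : Q' = Q := by simpa using h
    subst h3
    have h4 := hQ.head
    rw [hQ'.head] at h4
    exact (Option.some.inj h4).symm
  rw [h2, finsum_mem_finset_eq_sum, Finset.sum_filter]
  refine Finset.sum_congr rfl fun c _ => ?_
  by_cases h : E c j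
  · rw [if_pos h, dif_pos h, finsum_mem_image (List.cons_injective.injOn), F,
      mul_finsum_mem' _ _ (trek_finite c i)]
    exact finsum_mem_congr rfl fun P hP => wt_cons hE hij h hP
  · rw [if_neg h, dif_neg h]

end Pool.Agent.Q84.Trek
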