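import Pool.Agent.Q84.Trek.Low

set_option autoImplicit false

/-!
# Toric Gaussian ideals of directed acyclic graphs
-/

namespace Pool.Agent.Q84.Trek

open MvPolynomial

variable {n : ℕ} {E : Fin n → Fin n → Prop}

/-- The variable `sigma_xy = sigma_yx`. -/
def vv (x y : Fin n) : Idx n := ⟨(min x y, max x y), min_le_max⟩

theorem vv_inj (x y x' y' : Fin n) (h : vv x y = vv x' y') :
    (x = x' ∧ y = y') ∨ (x = y' ∧ y = x') := by
  have h1 : min x y = min x' y' := congrArg (fun p : Idx n => p.1.1) h
  have h2 : max x y = max x' y' := congrArg (fun p : Idx n => p.1.2) h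
  rcases le_total x y with h3 | h3 <;> rcases le_total x' y' with h4 | h4 <;>
    simp only [h3, h4, min_eq_left, min_eq_right, max_eq_left, max_eq_right] at h1 h2 <;> tauto

theorem phi_vv (hE : ∀ i j, E i j → i < j) (x y : Fin n) : phi E (X (vv x y)) = F E x y := by
  rw [phi, aeval_X]
  rcases le_total x y with h | h
  · simp only [vv, min_eq_left h, max_eq_right h]; rfl
  · simp only [vv, min_eq_right h, max_eq_left h]
    rw [F_comm hE x y]; rfl

theorem vv_of_idx (p : Idx n) : vv p.1.1 p.1.2 = p := by
  apply Subtype.ext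
  simp only [vv, min_eq_left p.2, max_eq_right p.2]

theorem G_comm (hE : ∀ i j, E i j → i < j) (i j : Fin n) : G E i j = G E j i := by
  rw [← lo_F, ← lo_F, F_comm hE]

theorem psi_vv (hE : ∀ i j, E i j → i < j) (x y : Fin n) : psi E (X (vv x y)) = G E x y := by
  rw [psi, aeval_X]
  rcases le_total x y with h | h
  · simp only [vv, min_eq_left h, max_eq_right h]; rfl
  · simp only [vv, min_eq_right h, max_eq_left h]
    rw [G_comm hE x y]; rfl

open Classical in
/-- Kill the variables of the edges `k → j` with `k ≠ c`. -/
noncomputable def sp (E : Fin n → Fin n → Prop) (c j : Fin n) :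
    MvPolynomial (Par E) ℂ →ₐ[ℂ] MvPolynomial (Par E) ℂ :=
  aeval (Sum.elim (fun i => X (Sum.inl i))
    (fun e => if e.1.2 = j ∧ e.1.1 ≠ c then 0 else X (Sum.inr e)))

theorem sp_F (hE : ∀ i j, E i j → i < j) (c j : Fin n) : ∀ (k : ℕ) (x y : Fin n),
    x < j → y < j → (x : ℕ) < k → (y : ℕ) < k → sp E c j (F E x y) = F E x y := by
  classical
  intro k
  induction k with
  | zero => intro x y _ _ h; exact absurd h (Nat.not_lt_zero _)
  | succ k ih =>
    -- the case x < y
    have key : ∀ x y : Fin n, x < j → y < j → (y : ℕ) < k + 1 → x < y →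
        sp E c j (F E y x) = F E y x := by
      intro x y hx hy hyk hxy
      rw [F_rec hE hxy, map_sum]
      refine Finset.sum_congr rfl fun d _ => ?_
      by_cases hd : E d y
      · rw [dif_pos hd, map_mul]
        have hdy := hE _ _ hd
        have h1 : (x : ℕ) < (y : ℕ) := hxy
        have h2 : (d : ℕ) < (y : ℕ) := hdy
        rw [ih d x (hdy.trans hy) hx (by omega) (by omega)]
        congr 1
        rw [sp, aeval_X]
        simp only [Sum.elim_inr]
        rw [if_neg]
        rintro ⟨h3, -⟩
        exact absurd h3 hy.ne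
      · rw [dif_neg hd, map_zero]
    intro x y hx hy hxk hyk
    rcases lt_trichotomy x y with h | h | h
    · rw [F_comm hE x y]; exact key x y hx hy hyk h
    · subst h
      rw [F_self, sp, aeval_X]; rfl
    · exact key y x hy hx hxk h

theorem sp_F_top (hE : ∀ i j, E i j → i < j) {c j i : Fin n} (hc : E c j) (hij : i < j) :
    sp E c j (F E j i) = X (Sum.inr ⟨(c, j), hc⟩) * F E c i := by
  classical
  rw [F_rec hE hij, map_sum, Finset.sum_eq_single c]
  · rw [dif_pos hc, map_mul, sp_F hE c j (n + 1) c i (hE _ _ hc) hij (by omega) (by omega), sp,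
      aeval_X]
    simp
  · intro d _ hdc
    by_cases hd : E d j
    · rw [dif_pos hd, map_mul]
      have : sp E c j (X (Sum.inr ⟨(d, j), hd⟩)) = 0 := by
        rw [sp, aeval_X]
        simp [hdc]
      rw [this, zero_mul]
    · rw [dif_neg hd, map_zero]
  · intro h; exact absurd (Finset.mem_univ _) h

/-- If the ideal of the graph has the binomial property, then every pair of vertices which is
joined by a trek but not by an edge satisfies a quadratic binomial relation. -/
theorem relation (hE : ∀ i j, E i j → i < j) (hBP : BP (vanishingIdeal E)) {i j : Fin n}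
    (hij : i < j) (hn : ¬ E i j) (hT : (T E i j).Nonempty) :
    ∃ c, E c j ∧ F E i c ≠ 0 ∧ F E i j * F E c c = F E i c * F E c j := by
  classical
  have hrec : ∀ r : Fin n, r < j → F E r j =
      ∑ c ∈ Finset.univ.filter (fun c => E c j), edgeVar E c j * F E r c := by
    intro r hr
    rw [F_comm hE, F_rec hE hr, Finset.sum_filter]
    refine Finset.sum_congr rfl fun c _ => ?_
    by_cases h : E c j
    · rw [dif_pos h, if_pos h, edgeVar_of _ _ h, F_comm hE c r]
    · rw [dif_neg h, if_neg h]
  obtain ⟨c, hc, κ, hκ, heq⟩ := extraction (phi E) vv vv_inj hBP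
    (Finset.univ.filter (fun c => E c j)) i j (by simpa using hn)
    (by
      simp only [Finset.mem_filter, Finset.mem_univ, true_and]
      exact fun h => lt_irrefl _ (hE _ _ h))
    hij.ne (fun c => edgeVar E c j)
    (by
      rw [phi_vv hE, hrec i hij]
      exact Finset.sum_congr rfl fun c _ => by rw [phi_vv hE])
    (by
      intro r hr
      rw [phi_vv hE, hrec r (hE _ _ (Finset.mem_filter.mp hr).2)]
      exact Finset.sum_congr rfl fun c _ => by rw [phi_vv hE])
    ord ord_mul ord_smul
    (by intro c _; rw [phi_vv hE, F_self]; exact X_ne_zero _)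
    (by intro c _; rw [phi_vv hE, F_self, ord_inl])
    (by intro x _ y hxy h; rw [phi_vv hE] at h ⊢; exact ord_pos hxy h)
    (by
      intro c hc h
      rw [phi_vv hE] at h
      rw [phi_vv hE, phi_vv hE]
      exact ord_step hE hij (Finset.mem_filter.mp hc).2 h)
    (by rw [phi_vv hE]; exact F_ne_zero hT)
  simp only [phi_vv hE] at heq
  have hc' : E c j := (Finset.mem_filter.mp hc).2
  have hne : F E i c ≠ 0 := by
    intro h
    rw [h, zero_mul, smul_zero] at heq
    exact mul_ne_zero (F_ne_zero hT) (by rw [F_self]; exact X_ne_zero _) heq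
  have hκ1 : κ = 1 := by
    have h1 := congrArg (sp E c j) heq
    rw [map_mul, map_smul, map_mul, F_comm hE i j, F_comm hE c j, sp_F_top hE hc' hij,
      sp_F_top hE hc' (hE _ _ hc'), sp_F hE c j (n + 1) c c (hE _ _ hc') (hE _ _ hc') (by omega)
      (by omega), sp_F hE c j (n + 1) i c hij (hE _ _ hc') (by omega) (by omega),
      F_comm hE c i] at h1
    have h2 : F E i c * (X (Sum.inr ⟨(c, j), hc'⟩) * F E c c) ≠ 0 := by
      refine mul_ne_zero hne (mul_ne_zero (X_ne_zero _) ?_)
      rw [F_self]; exact X_ne_zero _
    have h3 : (C 1 - C κ) * (F E i c * (X (Sum.inr ⟨(c, j), hc'⟩) * F E c c)) = 0 := by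
      rw [sub_mul, C_1, one_mul, ← smul_eq_C_mul, ← h1]
      ring
    rcases mul_eq_zero.mp h3 with h4 | h4
    · rw [← map_sub] at h4
      have h5 : (1 : ℂ) - κ = 0 := by rwa [C_eq_zero] at h4
      exact (sub_eq_zero.mp h5).symm
    · exact absurd h4 h2
  refine ⟨c, hc', hne, ?_⟩
  rw [heq, hκ1, one_smul]

theorem G_self (i : Fin n) : G E i i = X (Sum.inl i) := by
  rw [← lo_F, F_self, lo_inl]

theorem edge_trek (hE : ∀ i j, E i j → i < j) {c j : Fin n} (hc : E c j) : [c, j] ∈ T E c j := by
  refine ⟨rfl, rfl, by simpa using Or.inl hc, by simpa using (hE _ _ hc).ne, ?_⟩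
  intro x y z h
  have := h.length_le
  simp at this

theorem S_edge (hE : ∀ i j, E i j → i < j) {c j : Fin n} (hc : E c j) : S E c j = {[c, j]} := by
  ext P
  rw [Set.mem_singleton_iff]
  constructor
  · intro hP
    have h1 := hP.2 _ (edge_trek hE hc)
    have hT := hP.1
    rcases P with _ | ⟨a, _ | ⟨b, _ | ⟨d, l⟩⟩⟩
    · exact absurd hT.head (by simp)
    · exfalso
      have h2 := hT.head
      have h3 := hT.last
      simp at h2 h3
      exact (hE _ _ hc).ne (h2.symm.trans h3)
    · have h2 := hT.head
      have h3 := hT.last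
      simp at h2 h3
      rw [h2, h3]
    · simp at h1
  · rintro rfl
    refine ⟨edge_trek hE hc, fun Q hQ => ?_⟩
    rcases Q with _ | ⟨a, _ | ⟨b, l⟩⟩
    · exact absurd hQ.head (by simp)
    · exfalso
      have h2 := hQ.head
      have h3 := hQ.last
      simp at h2 h3
      exact (hE _ _ hc).ne (h2.symm.trans h3)
    · simp

theorem G_edge (hE : ∀ i j, E i j → i < j) {c j : Fin n} (hc : E c j) :
    G E c j = X (Sum.inl c) * X (Sum.inr ⟨(c, j), hc⟩) := by
  have hmin : ([c, j] : List (Fin n)).min? = some c := by
    rw [List.min?_eq_some_iff]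
    refine ⟨by simp, fun b hb => ?_⟩
    have : b = c ∨ b = j := by simpa using hb
    rcases this with rfl | rfl
    · exact le_rfl
    · exact le_of_lt (hE _ _ hc)
  rw [G, S_edge hE hc, finsum_mem_singleton, wt, hmin, edgeProd, edgeProd, edgeVar_of _ _ hc,
    mul_one]
  rfl

theorem G_relation (hE : ∀ i j, E i j → i < j) (hBP : BP (vanishingIdeal E)) {i j : Fin n}
    (hij : i < j) (hn : ¬ E i j) (hT : (T E i j).Nonempty) :
    ∃ c, E c j ∧ (T E i c).Nonempty ∧ F E i j * F E c c = F E i c * F E c j ∧
      G E i j * G E c c = G E i c * G E c j := by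
  obtain ⟨c, hc, hne, h⟩ := relation hE hBP hij hn hT
  refine ⟨c, hc, nonempty_of_F hne, h, ?_⟩
  have := congrArg lo h
  rwa [lo_mul, lo_mul, lo_F, lo_F, lo_F, lo_F] at this

/-- There is just one shortest trek. -/
theorem ev_G_one (hE : ∀ i j, E i j → i < j) (hBP : BP (vanishingIdeal E)) : ∀ (k : ℕ)
    (x y : Fin n), (x : ℕ) < k → (y : ℕ) < k → (T E x y).Nonempty → ev (G E x y) = 1 := by
  intro k
  induction k with
  | zero => intro x y h; exact absurd h (Nat.not_lt_zero _)
  | succ k ih =>
    have hself : ∀ x : Fin n, ev (G E x x) = 1 := by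
      intro x; rw [G_self]; simp [ev]
    have key : ∀ x y : Fin n, (y : ℕ) < k + 1 → x < y → (T E x y).Nonempty →
        ev (G E x y) = 1 := by
      intro x y hy hxy hT
      by_cases hn : E x y
      · rw [G_edge hE hn]; simp [ev]
      · obtain ⟨c, hc, hTc, -, hG⟩ := G_relation hE hBP hxy hn hT
        have h1 := congrArg ev hG
        have h2 : (c : ℕ) < (y : ℕ) := hE _ _ hc
        have h3 : (x : ℕ) < (y : ℕ) := hxy
        rw [map_mul, map_mul, hself, mul_one, ih x c (by omega) (by omega) hTc, one_mul,
          G_edge hE hc] at h1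
        rw [h1]; simp [ev]
    intro x y hx hy hT
    rcases lt_trichotomy x y with h | h | h
    · exact key x y hy h hT
    · subst h; exact hself x
    · rw [G_comm hE]
      refine key y x hx h ?_
      obtain ⟨P, hP⟩ := hT
      exact ⟨_, trek_reverse hP⟩

theorem psiDefined (hE : ∀ i j, E i j → i < j) (hBP : BP (vanishingIdeal E)) : PsiDefined E := by
  intro i j _ hT
  have h1 := ev_G_one hE hBP n i j i.2 j.2 hT
  rw [ev_G] at h1
  have h2 : (S_finite (E := E) i j).toFinset.card = 1 := by exact_mod_cast h1
  obtain ⟨P, hP⟩ := Finset.card_eq_one.mp h2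
  have h3 : ∀ Q, Q ∈ S E i j ↔ Q = P := by
    intro Q
    rw [← Set.Finite.mem_toFinset (S_finite i j), hP, Finset.mem_singleton]
  exact ⟨P, (h3 P).mpr rfl, fun Q hQ => (h3 Q).mp hQ⟩

theorem lo_phi_monomial (hE : ∀ i j, E i j → i < j) (m : Idx n →₀ ℕ) :
    lo (phi E (monomial m 1)) = psi E (monomial m 1) := by
  induction m using Finsupp.induction with
  | zero =>
    rw [show (monomial (0 : Idx n →₀ ℕ) (1 : ℂ)) = 1 from rfl, map_one, map_one,
      show (1 : MvPolynomial (Par E) ℂ) = C 1 from C_1.symm, lo_C]
  | single_add a b f ha hb ih =>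
    rw [show (monomial (Finsupp.single a b + f) (1 : ℂ)) = X a ^ b * monomial f 1 by
      rw [X_pow_eq_monomial, monomial_mul, one_mul], map_mul, map_mul, map_pow, map_pow, lo_mul,
      lo_pow, ih, ← vv_of_idx a, phi_vv hE, psi_vv hE, lo_F]

theorem vanishing_le (hE : ∀ i j, E i j → i < j) (hBP : BP (vanishingIdeal E)) :
    vanishingIdeal E ≤ shortestTrekIdeal E := by
  classical
  have key : ∀ (k : ℕ) (f : MvPolynomial (Idx n) ℂ), f.support.card = k → f ∈ vanishingIdeal E →
      f ∈ shortestTrekIdeal E := by
    intro k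
    induction k using Nat.strong_induction_on with
    | _ k ih =>
      intro f hk hf
      by_cases hf0 : f = 0
      · rw [hf0]; exact Ideal.zero_mem _
      obtain ⟨m, hm⟩ : f.support.Nonempty := by
        rwa [Finset.nonempty_iff_ne_empty, Ne, support_eq_empty]
      rcases hBP f hf m hm with h | ⟨m', hm', hne, c, hc, hcm⟩
      · -- the monomial is in the ideal
        have h1 : monomial m (coeff m f) ∈ vanishingIdeal E := by
          rw [← mul_one (coeff m f), ← C_mul_monomial]
          exact Ideal.mul_mem_left _ _ h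
        have h2 : monomial m (coeff m f) ∈ shortestTrekIdeal E := by
          rw [← mul_one (coeff m f), ← C_mul_monomial]
          refine Ideal.mul_mem_left _ _ ?_
          have h3 : phi E (monomial m 1) = 0 := h
          have h4 := lo_phi_monomial hE m
          rw [h3, lo_zero] at h4
          exact h4.symm
        have h5 : (f - monomial m (coeff m f)).support.card < k := by
          rw [← hk]
          apply Finset.card_lt_card
          refine ⟨?_, fun hsub => ?_⟩
          · intro m'' hm''
            rw [mem_support_iff, coeff_sub, coeff_monomial] at hm''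
            rw [mem_support_iff]
            intro h0
            by_cases hmm : m = m''
            · subst hmm; simp at hm''
            · rw [h0, if_neg hmm, sub_zero] at hm''; exact hm'' rfl
          · have := hsub hm
            rw [mem_support_iff, coeff_sub, coeff_monomial, if_pos rfl, sub_self] at this
            exact this rfl
        have h6 := ih _ h5 _ rfl (Ideal.sub_mem _ hf h1)
        have h7 := Ideal.add_mem _ h6 h2
        rwa [sub_add_cancel] at h7
      · set b : MvPolynomial (Idx n) ℂ := C (coeff m f) * (monomial m 1 - monomial m' c) with hb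
        have h1 : b ∈ vanishingIdeal E := Ideal.mul_mem_left _ _ hcm
        have h2 : b ∈ shortestTrekIdeal E := by
          refine Ideal.mul_mem_left _ _ ?_
          have h3 : phi E (monomial m 1 - monomial m' c) = 0 := hcm
          rw [map_sub, sub_eq_zero, show (monomial m' c : MvPolynomial (Idx n) ℂ) =
            c • monomial m' 1 by rw [smul_monomial, smul_eq_mul, mul_one], map_smul] at h3
          have h4 := congrArg lo h3
          rw [lo_smul, lo_phi_monomial hE, lo_phi_monomial hE] at h4
          change psi E (monomial m 1 - monomial m' c) = 0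
          rw [map_sub, sub_eq_zero, show (monomial m' c : MvPolynomial (Idx n) ℂ) =
            c • monomial m' 1 by rw [smul_monomial, smul_eq_mul, mul_one], map_smul, h4]
        have hbc : ∀ m'', coeff m'' b = coeff m f * ((if m = m'' then 1 else 0) -
            (if m' = m'' then c else 0)) := by
          intro m''
          rw [hb, coeff_C_mul, coeff_sub, coeff_monomial, coeff_monomial]
        have h5 : (f - b).support.card < k := by
          rw [← hk]
          apply Finset.card_lt_card
          refine ⟨?_, fun hsub => ?_⟩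
          · intro m'' hm''
            rw [mem_support_iff, coeff_sub, hbc] at hm''
            rw [mem_support_iff]
            intro h0
            by_cases hmm : m = m''
            · subst hmm; exact (mem_support_iff.mp hm) h0
            · by_cases hmm' : m' = m''
              · subst hmm'; exact (mem_support_iff.mp hm') h0
              · rw [h0, if_neg hmm, if_neg hmm', sub_zero, mul_zero, sub_zero] at hm''
                exact hm'' rfl
          · have := hsub hm
            rw [mem_support_iff, coeff_sub, hbc, if_pos rfl, if_neg hne, sub_zero, mul_one,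
              sub_self] at this
            exact this rfl
        have h6 := ih _ h5 _ rfl (Ideal.sub_mem _ hf h1)
        have h7 := Ideal.add_mem _ h6 h2
        rwa [sub_add_cancel] at h7
  intro f hf
  exact key _ f rfl hf

/-- The substitution `a_i ↦ phi (sigma_ii)`, `lambda_kl ↦ phi (sigma_kl) / phi (sigma_kk)`. -/
noncomputable def rho (E : Fin n → Fin n → Prop) :
    MvPolynomial (Par E) ℂ →ₐ[ℂ] FractionRing (MvPolynomial (Par E) ℂ) :=
  aeval (Sum.elim (fun i => algebraMap _ _ (F E i i))
    (fun e => algebraMap _ _ (F E e.1.1 e.1.2) / algebraMap _ _ (F E e.1.1 e.1.1)))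

theorem rho_G (hE : ∀ i j, E i j → i < j) (hBP : BP (vanishingIdeal E)) : ∀ (k : ℕ)
    (x y : Fin n), (x : ℕ) < k → (y : ℕ) < k →
    rho E (G E x y) = algebraMap _ (FractionRing (MvPolynomial (Par E) ℂ)) (F E x y) := by
  have hself : ∀ x : Fin n, rho E (G E x x) =
      algebraMap _ (FractionRing (MvPolynomial (Par E) ℂ)) (F E x x) := by
    intro x; rw [G_self, rho, aeval_X]; rfl
  have hFne : ∀ x : Fin n, algebraMap _ (FractionRing (MvPolynomial (Par E) ℂ)) (F E x x) ≠ 0 := by
    intro x h
    have := (IsFractionRing.injective (MvPolynomial (Par E) ℂ)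
      (FractionRing (MvPolynomial (Par E) ℂ))) (h.trans (map_zero _).symm)
    rw [F_self] at this
    exact X_ne_zero _ this
  have hedge : ∀ x y : Fin n, E x y → rho E (G E x y) =
      algebraMap _ (FractionRing (MvPolynomial (Par E) ℂ)) (F E x y) := by
    intro x y hxy
    rw [G_edge hE hxy, map_mul, rho, aeval_X, aeval_X]
    simp only [Sum.elim_inl, Sum.elim_inr]
    rw [mul_div_cancel₀ _ (hFne x)]
  intro k
  induction k with
  | zero => intro x y h; exact absurd h (Nat.not_lt_zero _)
  | succ k ih =>
    have key : ∀ x y : Fin n, (y : ℕ) < k + 1 → x < y →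
        rho E (G E x y) = algebraMap _ (FractionRing (MvPolynomial (Par E) ℂ)) (F E x y) := by
      intro x y hy hxy
      by_cases hn : E x y
      · exact hedge x y hn
      by_cases hT : (T E x y).Nonempty
      · obtain ⟨c, hc, hTc, hF, hG⟩ := G_relation hE hBP hxy hn hT
        have h1 := congrArg (rho E) hG
        have h2 := congrArg (algebraMap _ (FractionRing (MvPolynomial (Par E) ℂ))) hF
        have h3 : (c : ℕ) < (y : ℕ) := hE _ _ hc
        have h4 : (x : ℕ) < (y : ℕ) := hxy
        rw [map_mul, map_mul, hself, ih x c (by omega) (by omega), hedge c y hc, ← map_mul, ← hF,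
          map_mul] at h1
        exact mul_right_cancel₀ (hFne c) h1
      · rw [F_of_empty hT, G_of_empty hT, map_zero, map_zero]
    intro x y hx hy
    rcases lt_trichotomy x y with h | h | h
    · exact key x y hy h
    · subst h; exact hself x
    · rw [G_comm hE, F_comm hE]
      exact key y x hx h

theorem shortest_le (hE : ∀ i j, E i j → i < j) (hBP : BP (vanishingIdeal E)) :
    shortestTrekIdeal E ≤ vanishingIdeal E := by
  have h : (rho E).comp (psi E) = (Algebra.algHom ℂ (MvPolynomial (Par E) ℂ)
      (FractionRing (MvPolynomial (Par E) ℂ))).comp (phi E) := by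
    apply MvPolynomial.algHom_ext
    intro p
    rw [← vv_of_idx p, AlgHom.comp_apply, AlgHom.comp_apply, psi_vv hE, phi_vv hE,
      rho_G hE hBP n _ _ p.1.1.2 p.1.2.2]
    rfl
  intro f hf
  have h1 : psi E f = 0 := hf
  have h2 := congrArg (fun g => g f) h
  simp only [AlgHom.comp_apply] at h2
  rw [h1, map_zero] at h2
  exact (IsFractionRing.injective (MvPolynomial (Par E) ℂ)
      (FractionRing (MvPolynomial (Par E) ℂ))) (h2.symm.trans (map_zero _).symm)

/-- The main direction. -/
theorem main (hE : ∀ i j, E i j → i < j) (hBP : BP (vanishingIdeal E)) :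
    PsiDefined E ∧ vanishingIdeal E = shortestTrekIdeal E :=
  ⟨psiDefined hE hBP, le_antisymm (vanishing_le hE hBP) (shortest_le hE hBP)⟩

end Pool.Agent.Q84.Trek
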